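import Pool.Agent.Helper64.Rig.Basics

/-!
# Nondegeneracy of the covering curve (MP_148db9_ag, packet Nondeg)
-/

namespace Pool.Agent.Helper85.Rig

open MvPolynomial Module Pool.Agent.Helper64.Rig

/-- The linear form of index `j` at `v`. -/
def ell (ζ : ℂ) (j : Jx) (v : Fin 3 → ℂ) : ℂ := v (j.1 + 1) + ζ ^ (j.2 : ℕ) * v (j.1 + 2)

theorem zeta_pow_ne {ζ : ℂ} (hζ : IsPrimitiveRoot ζ 5) {k k' : Fin 5} (h : k ≠ k') :
    ζ ^ (k' : ℕ) - ζ ^ (k : ℕ) ≠ 0 := by
  intro h0
  have h1 : ζ ^ (k' : ℕ) = ζ ^ (k : ℕ) := sub_eq_zero.1 h0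
  have h2 := hζ.pow_inj k'.2 k.2 h1
  exact h (Fin.ext h2).symm

theorem zeta_ne {ζ : ℂ} (hζ : IsPrimitiveRoot ζ 5) (k : ℕ) : ζ ^ k ≠ 0 :=
  pow_ne_zero _ (hζ.ne_zero (by norm_num))

theorem f21 : ∀ i : Fin 3, ¬ (i + 2 = i + 1) := by decide
theorem f01 : ∀ i : Fin 3, ¬ (i = i + 1) := by decide
theorem f02 : ∀ i : Fin 3, ¬ (i = i + 2) := by decide
theorem f11 : ∀ i : Fin 3, i + 1 + 1 = i + 2 := by decide
theorem f12 : ∀ i : Fin 3, i + 1 + 2 = i := by decide
theorem g21 : ∀ i : Fin 3, i + 2 + 1 = i := by decide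
theorem g22 : ∀ i : Fin 3, i + 2 + 2 = i + 1 := by decide
theorem fcase : ∀ i i' : Fin 3, ¬ i = i' → i' = i + 1 ∨ i' = i + 2 := by decide

theorem exists_ell {ζ : ℂ} (hζ : IsPrimitiveRoot ζ 5) {j j' : Jx} (h : j ≠ j') (a b : ℂ) :
    ∃ v : Fin 3 → ℂ, ell ζ j v = a ∧ ell ζ j' v = b := by
  obtain ⟨i, k⟩ := j
  obtain ⟨i', k'⟩ := j'
  have hk := zeta_ne hζ (k : ℕ)
  have hk' := zeta_ne hζ (k' : ℕ)
  by_cases hi : i = i'
  · subst hi
    have hkk : k ≠ k' := fun hh => h (by rw [hh])
    have hd := zeta_pow_ne hζ hkk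
    set y : ℂ := (b - a) / (ζ ^ (k' : ℕ) - ζ ^ (k : ℕ)) with hy
    have hy' : (ζ ^ (k' : ℕ) - ζ ^ (k : ℕ)) * y = b - a := by
      rw [hy]; field_simp
    refine ⟨fun m => if m = i + 1 then a - ζ ^ (k : ℕ) * y else if m = i + 2 then y else 0, ?_, ?_⟩
    · have e := f21 i
      simp only [ell, if_true, if_neg e]
      ring
    · have e := f21 i
      simp only [ell, if_true, if_neg e]
      linear_combination hy'
  · have hc := fcase i i' hi
    rcases hc with rfl | rfl
    · -- second form: v (i+2) + zeta^k' v i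
      refine ⟨fun m => if m = i + 1 then a else if m = i + 2 then 0 else b / ζ ^ (k' : ℕ), ?_, ?_⟩
      · have e := f21 i
        simp only [ell, if_true, if_neg e]
        ring
      · have e1 := f11 i
        have e2 := f12 i
        have e3 := f21 i
        have e4 := f01 i
        have e5 := f02 i
        simp only [ell, e1, e2, if_true, if_neg e3, if_neg e4, if_neg e5]
        field_simp
        ring
    · -- second form: v i + zeta^k' v (i+1)
      refine ⟨fun m => if m = i + 1 then 0 else if m = i + 2 then a / ζ ^ (k : ℕ) else b, ?_, ?_⟩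
      · have e := f21 i
        simp only [ell, if_true, if_neg e]
        field_simp
        ring
      · have e1 := g21 i
        have e2 := g22 i
        have e4 := f01 i
        have e5 := f02 i
        simp only [ell, e1, e2, if_true, if_neg e4, if_neg e5]
        ring

/-- The key identity is impossible. -/
theorem no_fifth_power {ζ : ℂ} (hζ : IsPrimitiveRoot ζ 5) {j j' : Jx} (h : j ≠ j')
    (L : Fin 3 → ℂ) (γ : ℂ)
    (hid : ∀ v : Fin 3 → ℂ, (∑ i, L i * v i) ^ 5 - ell ζ j v * ell ζ j' v ^ 4 = γ * ∑ i, v i ^ 5) :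
    False := by
  by_cases hγ : γ = 0
  · subst hγ
    obtain ⟨u, hu1, hu2⟩ := exists_ell hζ h 0 1
    obtain ⟨w, hw1, hw2⟩ := exists_ell hζ h 1 0
    have h1 := hid u
    rw [hu1, hu2] at h1
    have h2 := hid w
    rw [hw1, hw2] at h2
    have h1' : ∑ i, L i * u i = 0 := by
      have : (∑ i, L i * u i) ^ 5 = 0 := by linear_combination h1
      exact pow_eq_zero_iff (by norm_num) |>.1 this
    have h2' : ∑ i, L i * w i = 0 := by
      have : (∑ i, L i * w i) ^ 5 = 0 := by linear_combination h2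
      exact pow_eq_zero_iff (by norm_num) |>.1 this
    have h3 := hid (u + w)
    have e1 : ell ζ j (u + w) = ell ζ j u + ell ζ j w := by
      simp only [ell, Pi.add_apply]; ring
    have e2 : ell ζ j' (u + w) = ell ζ j' u + ell ζ j' w := by
      simp only [ell, Pi.add_apply]; ring
    have e3 : ∑ i, L i * (u + w) i = 0 := by
      simp only [Pi.add_apply, mul_add, Finset.sum_add_distrib, h1', h2', add_zero]
    rw [e1, e2, e3, hu1, hu2, hw1, hw2] at h3
    norm_num at h3
  · -- a common zero of `L` and `ell j'`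
    let f : (Fin 3 → ℂ) →ₗ[ℂ] (Fin 2 → ℂ) :=
      { toFun := fun v => ![∑ i, L i * v i, ell ζ j' v]
        map_add' := by
          intro u w
          ext m
          fin_cases m
          · simp [mul_add, Finset.sum_add_distrib]
          · simp [ell]; ring
        map_smul' := by
          intro a u
          ext m
          fin_cases m
          · simp only [Fin.zero_eta, Matrix.cons_val_zero, Pi.smul_apply, smul_eq_mul,
              RingHom.id_apply, Finset.mul_sum]
            exact Finset.sum_congr rfl fun i _ => by ring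
          · simp only [Fin.mk_one, Matrix.cons_val_one, Matrix.cons_val_zero, Pi.smul_apply,
              smul_eq_mul, RingHom.id_apply, ell]
            ring }
    have hker : LinearMap.ker f ≠ ⊥ := LinearMap.ker_ne_bot_of_finrank_lt (by simp)
    obtain ⟨v, hv, hv0⟩ := (Submodule.ne_bot_iff _).1 hker
    have hv' : f v = 0 := LinearMap.mem_ker.1 hv
    have hv1 : ∑ i, L i * v i = 0 := by
      have := congrFun hv' 0
      simpa [f] using this
    have hv2 : ell ζ j' v = 0 := by
      have := congrFun hv' 1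
      simpa [f] using this
    apply hv0
    have key : ∀ i, v i = 0 := by
      intro i
      set w : Fin 3 → ℂ := Pi.single i 1 with hw
      have hline : ∀ t : ℂ, (t * L i) ^ 5 - (ell ζ j v + t * ell ζ j w) * (t * ell ζ j' w) ^ 4
          = γ * ((∑ m, v m ^ 5) - v i ^ 5 + (v i + t) ^ 5) := by
        intro t
        have h1 := hid (v + t • w)
        have e1 : ∑ m, L m * (v + t • w) m = t * L i := by
          simp only [Pi.add_apply, Pi.smul_apply, smul_eq_mul, mul_add, Finset.sum_add_distrib, hv1,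
            zero_add]
          rw [Finset.sum_eq_single i]
          · simp [hw]; ring
          · intro b _ hb
            simp [hw, Pi.single_eq_of_ne hb]
          · simp
        have e2 : ell ζ j (v + t • w) = ell ζ j v + t * ell ζ j w := by
          simp only [ell, Pi.add_apply, Pi.smul_apply, smul_eq_mul]; ring
        have e3 : ell ζ j' (v + t • w) = t * ell ζ j' w := by
          have : ell ζ j' (v + t • w) = ell ζ j' v + t * ell ζ j' w := by
            simp only [ell, Pi.add_apply, Pi.smul_apply, smul_eq_mul]; ring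
          rw [this, hv2, zero_add]
        have e4 : ∑ m, (v + t • w) m ^ 5 = (∑ m, v m ^ 5) - v i ^ 5 + (v i + t) ^ 5 := by
          rw [← Finset.add_sum_erase Finset.univ (fun m => (v + t • w) m ^ 5) (Finset.mem_univ i),
            ← Finset.add_sum_erase Finset.univ (fun m => v m ^ 5) (Finset.mem_univ i)]
          have : ∑ m ∈ Finset.univ.erase i, (v + t • w) m ^ 5 = ∑ m ∈ Finset.univ.erase i, v m ^ 5 := by
            refine Finset.sum_congr rfl fun m hm => ?_
            have hm' := (Finset.mem_erase.1 hm).1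
            simp [hw, Pi.single_eq_of_ne hm']
          rw [this]
          simp [hw]
          ring
        rw [e1, e2, e3, e4] at h1
        exact h1
      have p1 := hline 1
      have p1' := hline (-1)
      have p2 := hline 2
      have p2' := hline (-2)
      have p3 := hline 3
      have p3' := hline (-3)
      have hfin : γ * v i ^ 4 = 0 := by
        set A := L i
        set B := ell ζ j v
        set C' := ell ζ j w
        set D := ell ζ j' w
        set y := v i
        set S := ∑ m, v m ^ 5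
        -- odd part: (α-γ) t^5 - 10 γ y² t³ - 5 γ y⁴ t = 0 at t = 1, 2, 3
        have q1 : (A ^ 5 - C' * D ^ 4 - γ) * 1 - 10 * γ * y ^ 2 * 1 - 5 * γ * y ^ 4 * 1 = 0 := by
          linear_combination (p1 - p1') / 2
        have q2 : (A ^ 5 - C' * D ^ 4 - γ) * 32 - 10 * γ * y ^ 2 * 8 - 5 * γ * y ^ 4 * 2 = 0 := by
          linear_combination (p2 - p2') / 2
        have q3 : (A ^ 5 - C' * D ^ 4 - γ) * 243 - 10 * γ * y ^ 2 * 27 - 5 * γ * y ^ 4 * 3 = 0 := by
          linear_combination (p3 - p3') / 2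
        linear_combination (-(3:ℂ)/10) * q1 + (3/50) * q2 - (1/150) * q3
      have := (mul_eq_zero.1 hfin).resolve_left hγ
      exact pow_eq_zero_iff (by norm_num) |>.1 this
    exact funext key

variable {K : Type} [Field K] [Algebra ℂ K] {ζ : ℂ} {x : Jx → K}

theorem not_mem_KB (hNorm : StmtNorm) (hKer : StmtKer) (h : Cov ζ x) {j j' : Jx} (hj : j ≠ j') :
    x j / x j' ∉ KB x := by
  intro hρ
  have hx := x_ne h j'
  have hel := el_ne h j'
  set g := x j / x j' * el ζ x j' with hg
  have hgKB : g ∈ KB x := mul_mem hρ (el_mem_KB j')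
  have hg5 : g ^ 5 = el ζ x j * el ζ x j' ^ 4 := by
    rw [hg, mul_pow, div_pow, pow_five h, pow_five h]
    field_simp
  have hgA : g ∈ AA x 1 := by
    apply hNorm K ζ x h g hgKB 1
    rw [hg5]
    have := AA_mul (el_mem_AA (ζ := ζ) (x := x) j) (AA_pow (el_mem_AA (ζ := ζ) (x := x) j') 4)
    simpa using this
  obtain ⟨L, hL⟩ := mem_AA_one.1 hgA
  set P : MvPolynomial (Fin 3) ℂ := (∑ i, C (L i) * X i) ^ 5 -
    (X (j.1 + 1) + C (ζ ^ (j.2 : ℕ)) * X (j.1 + 2)) *
      (X (j'.1 + 1) + C (ζ ^ (j'.2 : ℕ)) * X (j'.1 + 2)) ^ 4 with hP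
  have hP0 : aeval (pr x) P = 0 := by
    rw [hP]
    simp only [map_sub, map_pow, map_mul, map_add, map_sum, aeval_X, algHom_C]
    rw [← hL, hg5]
    simp only [el, map_pow]
    ring
  obtain ⟨Q, hQ⟩ := (hKer K ζ x h).1 P hP0
  have hPdeg : P.totalDegree ≤ 5 := by
    have hh : P.IsHomogeneous 5 := by
      rw [hP]
      apply IsHomogeneous.sub
      · have : (∑ i, C (L i) * X i : MvPolynomial (Fin 3) ℂ).IsHomogeneous 1 :=
          IsHomogeneous.sum _ _ _ fun i _ => by
            have := (isHomogeneous_C (Fin 3) (L i)).mul (isHomogeneous_X ℂ i)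
            simpa using this
        have := this.pow 5
        simpa using this
      · have e : ∀ (i₁ i₂ : Fin 3) (c : ℂ),
            (X i₁ + C c * X i₂ : MvPolynomial (Fin 3) ℂ).IsHomogeneous 1 := by
          intro i₁ i₂ c
          apply IsHomogeneous.add (isHomogeneous_X ℂ i₁)
          have := (isHomogeneous_C (Fin 3) c).mul (isHomogeneous_X ℂ i₂)
          simpa using this
        have := (e (j.1 + 1) (j.1 + 2) (ζ ^ (j.2 : ℕ))).mul
          ((e (j'.1 + 1) (j'.1 + 2) (ζ ^ (j'.2 : ℕ))).pow 4)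
        simpa using this
    exact hh.totalDegree_le
  have hFhom : (FF : MvPolynomial (Fin 3) ℂ).IsHomogeneous 5 :=
    IsHomogeneous.sum _ _ _ fun i _ => by simpa using (isHomogeneous_X ℂ i).pow 5
  have hF0 : (FF : MvPolynomial (Fin 3) ℂ) ≠ 0 := by
    intro h0
    have := congrArg (eval ![1, 0, 0]) h0
    simp [FF, Fin.sum_univ_three] at this
  obtain ⟨γ, hγ⟩ : ∃ γ : ℂ, Q = C γ := by
    by_cases hQ0 : Q = 0
    · exact ⟨0, by rw [hQ0, C_0]⟩
    · refine ⟨coeff 0 Q, ?_⟩
      rw [← totalDegree_eq_zero_iff_eq_C]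
      have h1 := totalDegree_mul_of_isDomain hF0 hQ0
      rw [← hQ, hFhom.totalDegree hF0] at h1
      omega
  refine no_fifth_power h.prim hj L γ fun v => ?_
  have h2 := congrArg (eval v) hQ
  rw [hγ, hP] at h2
  simp only [map_sub, map_pow, map_mul, map_add, map_sum, eval_X, eval_C, FF] at h2
  simp only [ell]
  rw [mul_comm γ]
  exact h2

theorem pf_Nondeg (hGal : StmtGal) (hNorm : StmtNorm) (hKer : StmtKer) : StmtNondeg := by
  intro K _ _ ζ x h c hc
  obtain ⟨Ψ, _, π, h1, h2, -, -, h5⟩ := hGal K ζ x h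
  funext j0
  have hx := x_ne h j0
  have hco : ∀ ψ j, ∃ e : ℂ, π ψ (x j) = algebraMap ℂ K e * x j := by
    intro ψ j
    have := h5 ψ (Pi.single j 1)
    rwa [mono_single] at this
  choose e he using hco
  obtain ⟨ψ, hψ⟩ : ∃ ψ, e ψ j0 ≠ 0 := by
    by_contra hcon
    push Not at hcon
    apply hx
    rw [← h1 (x j0)]
    apply Finset.sum_eq_zero
    intro ψ _
    rw [he, hcon, map_zero, zero_mul]
  obtain ⟨a, ha⟩ := h2 ψ
  have hj : ∀ j, j ≠ j0 → e ψ j = 0 := by
    intro j hjj
    by_contra hne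
    apply not_mem_KB hNorm hKer h hjj
    have hd := InLine.div h (ha (x j)) (ha (x j0))
    rw [he, he] at hd
    have hne' : algebraMap ℂ K (e ψ j) ≠ 0 := by
      rw [ne_eq, map_eq_zero]; exact hne
    have hψ' : algebraMap ℂ K (e ψ j0) ≠ 0 := by
      rw [ne_eq, map_eq_zero]; exact hψ
    have : x j / x j0 = algebraMap ℂ K (e ψ j0 / e ψ j) *
        (algebraMap ℂ K (e ψ j) * x j / (algebraMap ℂ K (e ψ j0) * x j0)) := by
      rw [map_div₀]
      field_simp
    rw [this]
    exact mul_mem ((KB x).algebraMap_mem _) hd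
  have h0 : π ψ (∑ j, algebraMap ℂ K (c j) * x j) = 0 := by rw [hc, map_zero]
  rw [map_sum, Finset.sum_eq_single j0] at h0
  · rw [← Algebra.smul_def, map_smul, he, Algebra.smul_def] at h0
    have hψ' : algebraMap ℂ K (e ψ j0) ≠ 0 := by
      rw [ne_eq, map_eq_zero]; exact hψ
    have := (mul_eq_zero.1 h0).resolve_right (mul_ne_zero hψ' hx)
    simpa using this
  · intro j _ hjj
    rw [← Algebra.smul_def, map_smul, he, hj j hjj, map_zero, zero_mul, smul_zero]
  · simp

end Pool.Agent.Helper85.Rig
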